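import Pool.Agent.Q50.SS.Fin

/-!
# The Tate conjecture at one prime implies the Grothendieck-Serre conjecture at every prime

Let `X` be a smooth projective variety over a number field `F` which contains no CM field. If for
one prime `ℓ₀` all `ℓ₀`-adic Tate classes on all powers of `X` are algebraic, then for every prime
`ℓ` and all `i` the Galois representation on the `ℓ`-adic cohomology `H^i(X)` is semisimple. No
semisimplicity is assumed, and nothing on the `ℓ`-adic Tate classes.

For a general number field `F` apply the theorem to the Weil restriction of `X` to `ℚ`: over an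
algebraic closure `X` is a retract of it.
-/

open CategoryTheory AlgebraicGeometry

universe u w

namespace Pool.Agent.Results.MP_8f1292_ag.SemisimpleAtEveryPrime

open Pool.Agent.H914
open Pool.Agent.Q55 (GaloisAction)
open Pool.Agent.Q60.TD (SemisimpleAt IsAmpleLike)
open Pool.Agent.Y133.Half (pw)
open Pool.Agent.Q50.MTC (IsLadic IsTate IsAlg)
open Pool.Agent.Q50.LI (Artin FrobeniusElements)
open Pool.Agent.Q55.Moo (DetCyclotomic)

variable {k : Type u} [Field k] {𝒱 : VarClass k} {ops : CycleOps 𝒱}
  {W E₀ E : WeilCohomology.{u, 0} ops} [Algebra W.K E₀.K] [Algebra W.K E.K] [Algebra E₀.K ℂ]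
  [Algebra E.K ℂ] {Γ : Type w} [Group Γ] [TopologicalSpace Γ] {G₀ : GaloisAction E₀ Γ}
  {G : GaloisAction E Γ}

/-- **The Tate conjecture at one prime implies semisimplicity at every prime.** Let `W` be the
cohomology with rational coefficients (`hrat`), let `E₀` be the `ℓ₀`-adic and `E` the `ℓ`-adic
cohomology, with the actions `G₀` and `G` of the Galois group `Γ`, and let `A₀` and `A` be Artin's
comparison maps. Let `X` be a variety for which the action on the `ℓ`-adic cohomology is continuous
(`hX`), with a divisor `D` which has the properties of an ample divisor (`hD`), and such that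
an open subgroup of the Galois group acts on the square of the determinant of every stable subspace
of the `ℓ₀`-adic and of the `ℓ`-adic cohomology by a power of the cyclotomic character (`hdet₀`,
`hdet`). Suppose that there are Frobenius elements if the `ℓ₀`-adic cohomology of `X` is semisimple
(`hF`): this is the trace formula, and Serre's theorem that for many places the Zariski closure of
the group generated by the Frobenius element is a maximal torus of the monodromy group. If all
`ℓ₀`-adic Tate classes on all powers `X ^ (n + 1)` are algebraic (`hTC₀`), then the action on the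
`ℓ`-adic cohomology `H^i(X)` is semisimple for all `i`. -/
theorem result (hrat : ∀ r : W.K, ∃ q : ℚ, (q : W.K) = r) (A₀ : Artin W E₀) (A : Artin W E)
    {ℓ : ℕ} [Fact ℓ.Prime] (e : E.K ≃+* ℚ_[ℓ]) (X : 𝒱.Obj) (hX : IsLadic (G.ρ X) G.χ e)
    (D : X.Cycles) (hD : IsAmpleLike E₀ X D) (hdet₀ : DetCyclotomic G₀ X)
    (hdet : DetCyclotomic G X) (hF : (∀ i, SemisimpleAt G₀ X i) → FrobeniusElements G₀ G X)
    (hTC₀ : ∀ n j c, IsTate G₀ (pw X n) j c → IsAlg E₀ (pw X n) j c) (i : ℕ) :
    SemisimpleAt G X i :=
  Pool.Agent.Q50.SS.main hrat A₀ A hX hD hdet₀ hdet hF hTC₀ i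

end Pool.Agent.Results.MP_8f1292_ag.SemisimpleAtEveryPrime
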