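import Pool.Agent.Q57.SS.Law

/-!
# A zero-one law for the semisimplicity conjecture

Let `X` be a smooth projective variety over `ℚ` (a variety over a number field can be replaced by
its Weil restriction), and let `ℓ` be a prime. The following are equivalent:

* for all `n` and `i` the representation of the Galois group on `H^i(X ^ n)` is semisimple;
* for all `n` the intersection pairing on the Tate classes on `X ^ n` is nondegenerate;
* it is not true that the rank of the intersection pairing on the Tate classes on `X ^ n`, divided
  by the dimension of the space of the Tate classes on `X ^ n`, tends to zero.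

More precisely the representation on `H^i(X)` is semisimple if the intersection pairing on the Tate
classes is nondegenerate on the powers `X ^ m` with `m ≤ b_i(X)`.

Here a Tate class is a class which is fixed, up to the twist, by a subgroup of finite index. The
theorem is proved for every Weil cohomology theory with the action of a group such that the whole
group acts on the cohomology of the products of copies of `X` compatibly with the projections, and
such that every stable line in such a cohomology space is spanned by a Tate class: for the group
`Gal(ℚ)` and the coefficients `ℚ_ℓ` this is a theorem on Hodge-Tate characters.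
-/

open CategoryTheory AlgebraicGeometry Filter Topology

universe u w

namespace Pool.Agent.Results.MP_8f1292_ag.SemisimplicityZeroOne

open Pool.Agent.H914
open Pool.Agent.Y133.Half (pw)
open Pool.Agent.Q55 (GaloisAction tateDim)
open Pool.Agent.Q60.TD (SemisimpleAt)
open Pool.Agent.Q57.SS (DefinedOverBase LinesAreTate TateNondegenerate pairingRank)

variable {k : Type u} [Field k] {𝒱 : VarClass k} {ops : CycleOps 𝒱}
  {W : WeilCohomology.{u, 0} ops} {Γ : Type w} [Group Γ]

/-- **The zero-one law for semisimplicity.** `pw X n` is the product of `n + 1` copies of `X`. -/
theorem result (G : GaloisAction W Γ) (X : 𝒱.Obj) [Nontrivial (W.H X)]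
    (hX : DefinedOverBase G X) (hL : LinesAreTate G X) :
    (∀ i, (∀ m < Module.finrank W.K (W.gr X i), TateNondegenerate G (pw X m)) →
      SemisimpleAt G X i) ∧
    List.TFAE [∀ n i, SemisimpleAt G (pw X n) i,
      ∀ n, TateNondegenerate G (pw X n),
      ¬ Tendsto (fun n => (pairingRank G (pw X n) : ℝ) / tateDim G (pw X n)) atTop (𝓝 0)] := by
  refine ⟨fun i h => Pool.Agent.Q57.SS.semisimple_of_pairing hX hL
    (Pool.Agent.Q57.SS.isProd_self X) h, ?_⟩
  tfae_have 1 → 2 := fun h n => Pool.Agent.Q57.SS.nondeg_of_semisimple (h n)
  tfae_have 2 → 3 := by
    intro h hlim
    have h1 : (fun n => (pairingRank G (pw X n) : ℝ) / tateDim G (pw X n)) = fun _ => 1 := by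
      funext n
      rw [Pool.Agent.Q57.SS.rank_of_num (Pool.Agent.Q57.SS.num_of_nondeg (h n))]
      exact div_self (by exact_mod_cast (Pool.Agent.Q57.SS.tateDim_pos n).ne')
    rw [h1] at hlim
    exact one_ne_zero (tendsto_nhds_unique tendsto_const_nhds hlim)
  tfae_have 3 → 1 := by
    intro h n i
    rcases Pool.Agent.Q57.SS.num_or_zero G X with h1 | h1
    · exact Pool.Agent.Q57.SS.semisimple_pw hX hL h1 n i
    · exact absurd h1 h
  tfae_finish

end Pool.Agent.Results.MP_8f1292_ag.SemisimplicityZeroOne
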