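import Pool.Agent.Q18.HJ.SemiDefs

/-!
# Semisimplicity of Galois representations for hypersurfaces given by sums of forms in few variables

Let `F` be a number field. We consider the smooth hypersurfaces, of ARBITRARY dimension,

  `W : f_1(x^(1)) + f_2(x^(2)) + ⋯ + f_r(x^(r)) = 0`,

where the `f_j` are forms of one degree `d ≥ 2` in disjoint sets of variables: forms of any degree in
at most two variables, cubic forms in at most six variables, or quartic forms in at most four
variables (one more term `u_j^d` is allowed for every `j`). We prove that the `p`-adic realisation is
semisimple for all pure motives over `F` which, over the algebraic closure, are generated by such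
hypersurfaces, abelian varieties, curves and K3 surfaces; and that for sums of ternary cubic forms, of
binary quartic forms and elliptic curves, the commutant of Galois is moreover given by the
endomorphisms of the motive.
-/

open CategoryTheory MonoidalCategory

universe v u w

namespace Pool.Agent.Results.MP_8f1292_ag.SumsOfSmallForms

open Pool.Agent.Q18.HJ

/-- **Semisimplicity for sums of small forms.** Let `T` be the pure motives over the number field `F`
and over its algebraic closure (`hT`: known facts).
1. Let `X` be a motive over `F` which becomes over the algebraic closure of type `SmallType`: obtained
  by tensor products, direct sums, direct summands and Tate twists from motives of abelian varieties,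
  curves, K3 surfaces and smooth hypersurfaces `W`, of any dimensions, which are sums of small forms.
  Then the `p`-adic realisation of `X` is a semisimple representation of `G_F`.
2. If `X` is of type `EllipticType` (elliptic curves, and sums of cubic forms in at most three
  variables or of binary quartic forms), then moreover the commutant of `G_F` in the realisation is
  `End(X) ⊗ ℚ_p`, a semisimple algebra. -/
theorem result {𝓜 : Type u} [Category.{v} 𝓜] [Preadditive 𝓜] [MonoidalCategory 𝓜]
    {T : SemiData.{v, u, w} 𝓜} (hT : T.Facts) :
    (∀ X : T.MotF, T.SmallType (T.bc X) → T.SemiF X) ∧
      ∀ X : T.MotF, T.EllipticType (T.bc X) → T.SemiF X ∧ T.TateF X :=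
  SemiData.final hT

end Pool.Agent.Results.MP_8f1292_ag.SumsOfSmallForms
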